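import Pool.Agent.ConvG.MainE
import Pool.Agent.ConvF.ChainDim
import Pool.Agent.ConvF.ChainSOC
import Pool.Agent.ConvF.ChainPSD
import Pool.Agent.ConvF.UpperP

/-!
# MP_885423_lc: mixed-integer convex programs which determine all distances

Model (`Program`, `Correct`). The data are the weights `W` of the pairs of the `n` vertices of a graph,
the unknown `x` is an element of a real vector space of any dimension. The constraints are affine in
`W` and `x` jointly: any number of linear equations, and finitely many conditions
`A b (W, x) ∈ C b` with ARBITRARY convex sets `C b` in arbitrary real vector spaces (linear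
inequalities, second-order cones, positive semidefinite matrices, and so on). The output is affine in
`(W, x)`. `2 ^ m` programs `P j` (for example one mixed-integer program with `m` binary variables, `j`
being the values of these variables) are correct on `W` if no feasible vector of any of them has an
output above a distance, and some feasible vector of one of them has all outputs at least the
distances. The complexity of a constraint is measured by the maximal length `ℓ b` of the chains of
faces of `C b`; this is at most the dimension, at most `k` for semidefinite `k × k` matrices, and at
most `2` for second-order cones of any dimension.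

Theorem. (1) Let `ε > 0`. If `m ≤ n / 48` and `2 ^ m` programs are correct for all undirected graphs
with weights in `[1, 2 + ε]`, then for one of them
`n ^ 3 ≤ 3 * 10 ^ 9 (1 + ∑ b, min ((m + 1) ^ 3 (ℓ b + 1) ^ (3/2), (ℓ b + 1) ^ 3))`.
Here `2` is sharp: if the weights are in `[1, 2]`, then they are the distances, and no constraint is
needed. (2) The lengths of the chains of faces. (3) For all `n` and `k ≥ 1` there is a program with at most
`3000 (n ^ 3 / k ^ (3/2) + 1)` constraints, all of dimension at most `k`, which is correct for all
directed graphs with nonnegative weights.
So for `m = 0` the order `n ^ 3 / k ^ (3/2)` of the number of constraints is exact for every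
dimension `k ≤ n ^ 2`; with `m` binary variables at least a constant times `(n / (m + 1)) ^ 3 / k ^ (3/2)`
constraints are needed; and with up to `n / 48` binary variables `n ^ (3 - o(1))` constraints are
needed if the dimensions, or the sizes of the semidefinite matrices, are `n ^ o(1)`.

Proof. For a cut `s` (a `2`-colouring of the vertices) let `W s u v = 1 + c` or `2 + 2 c` (the latter if
`u, v` are in the same half of the vertex set) plus `c` if `s` separates `u` and `v`; this is a metric
(`c > 0` is small, `8 c ≤ ε`). For a triple
`t = (u, v, w)` with `v` in the first and `u, w` in the second half the slack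
`W u v + W v w - D u w` of a correct program is `2 c` at the chosen feasible point of `s` if `s` separates
`v` from `u` and from `w`, and `0` otherwise. Fix `j` and the set `S` of the cuts whose point is feasible
for `P j`. Averaging the points of the cuts which do not separate `t`, and moving slightly beyond the
average, one finds that each separated pair `(t, s)` is caught by a constraint `b`, the point of `s` not
being in the smallest face `F b t` of `C b` which contains the points of the cuts of `S` that do not
separate `t`. The relation `M b` of the caught pairs has no triangular sequence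
`(t 1, s 1), (t 2, s 2), …` (`s i` does not separate `t j` for `j < i`) of length more than `ℓ b + 1`.
Density restoration replaces the set of the at least `2 ^ (n - m)` cuts belonging to one `j` by its
intersection with a subcube, which fixes the colours on a set `I` of at most `12 m ≤ n / 4` vertices, such
that no pattern outside `I` has too high a density in it; its density in the subcube is still at least
`2 ^ (-m)`. Two counting arguments for the triples disjoint from `I`. (A) If `M` has no triangular
sequence of length more than `L`, then in every set of cuts of the subcube of density `2 ^ (-h)`, and for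
each of the three projections (to pairs of vertices), there is a cut `s` for which this projection of
`{t | M t s}` has at most `8 L (h + 3) ^ 2` elements (`h` up to a constant). Indeed fix also the colours on the class of the third vertices `w`, in the
best way; then a third vertex which is a witness for one cut has the right colour in all of them, and
for a random set `Y` of the other coordinates, of rate `1 / (h + 3)`, the expected density of the trace of
the cuts on `Y` is at least `1/2`, and there one finds identity patterns with only the first two vertices
in `Y`. With the Loomis-Whitney inequality the expected number of `t` is `O(L ^ (3/2) (m + 1) ^ 3)`.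
(B) A decision tree which reveals the colours of a triple `t` as long as some uncaught triple is not yet
determined gives `O(L ^ 3)`. (3) uses blocks of three groups of about `√k / 6` vertices.
-/

namespace Pool.Agent.Results.MP_885423_lc.MixedIntegerConvex

open Pool.Agent.ConvF

theorem result :
    (∀ ε : ℝ, 0 < ε → ∀ n m : ℕ, 48 * m ≤ n → ∀ P : Fin (2 ^ m) → Program n,
      (∀ W : Fin n → Fin n → ℝ, (∀ u, W u u = 0) → (∀ u v, W u v = W v u) →
        (∀ u v, u ≠ v → 1 ≤ W u v ∧ W u v ≤ 2 + ε) → Correct P W) →
      ∀ ℓ : ∀ j, (P j).ι → ℕ, (∀ j b, ChainsLE ((P j).C b) (ℓ j b)) →
      ∃ j, (n : ℝ) ^ 3 ≤ 3 * 10 ^ 9 * (1 + ∑ b, min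
        (((m : ℝ) + 1) ^ 3 * ((ℓ j b : ℝ) + 1) ^ (3 / 2 : ℝ)) (((ℓ j b : ℝ) + 1) ^ 3))) ∧
    (∀ (k : ℕ) (C : Set (Fin k → ℝ)), Convex ℝ C → ChainsLE C k) ∧
    (∀ k : ℕ, ChainsLE {A : Matrix (Fin k) (Fin k) ℝ | A.PosSemidef} k) ∧
    (∀ k : ℕ, ChainsLE {p : EuclideanSpace ℝ (Fin k) × ℝ | ‖p.1‖ ≤ p.2} 2) ∧
    (∀ n k : ℕ, 1 ≤ k → ∃ Q : Program n,
      (∀ W : Fin n → Fin n → ℝ, (∀ u v, 0 ≤ W u v) → Correct (fun _ : Unit => Q) W) ∧
      (∀ b, FiniteDimensional ℝ (Q.E b) ∧ Module.finrank ℝ (Q.E b) ≤ k) ∧
      (Fintype.card Q.ι : ℝ) ≤ 3000 * ((n : ℝ) ^ 3 / (k : ℝ) ^ (3 / 2 : ℝ) + 1)) :=
  ⟨fun _ hε n m hm P hP ℓ hℓ => Pool.Agent.ConvG.mainE hε n m hm P hP ℓ hℓ,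
    fun k C hC => by simpa using chainsLE_finrank (Fin k → ℝ) C hC,
    chainsLE_psd, fun k => chainsLE_soc _, upperP⟩

end Pool.Agent.Results.MP_885423_lc.MixedIntegerConvex
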