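import Pool.Agent.H39MIA.Rand
import Pool.Agent.H39MIA.Und

/-!
# MP_885423_lc: random mixed-integer programs for approximate distances, with shortfalls

Model (`Milp`). The data are the weights `W` of the ordered pairs of the `n` vertices of a directed
graph, the unknown `x` is an element of a real vector space, the constraints are affine jointly in
`W` and `x`: any number of linear equations, `r` linear inequalities, `q` binary variables. The
output is an affine function of `(W, x)`; it is found by maximisation, so that a program must not have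
feasible `x` with too large outputs (`Sound`: for all feasible `x` the outputs are `≤ ρ * dist W u v`),
and is useful if some feasible `x` has large outputs (`Complete`: nonnegative outputs, and the sum of
`max 0 (dist W u v - output)` over all pairs of vertices is at most `Δ`; for `Δ = 0` all outputs are
at least the distances). For example `D u v ≤ W u v`, `D u v ≤ D u w + D w v` is sound and complete
for `ρ = 1`, `Δ = 0`, with `O(n ^ 3)` inequalities.

Theorem. Let `ρ ≥ 1`, `L ≥ 10 ρ`, and let `P` be a random program (on any probability space `Ω`).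
(1) Let all outcomes `P ω` be sound for all directed graphs with real weights in `[1, L]`, and let `P`
be complete with probability at least `2 ^ (- d)` for every directed graph with all weights in
`{1, L}`. Then for some `ω`
`n ^ 4 ≤ (n + ρ ^ 2 exp (8 √(log n)) (q + d)) (10 ^ 16 ρ ^ 2 (r + n ^ 2 + 1) + 10 ^ 9 n Δ / L)`.
(2) If `420 ρ ^ 2 (q + d) ≤ n` and the same holds for undirected graphs only, then for some `ω`
`n ^ 3 ≤ 3 * 10 ^ 7 ρ ^ 2 (r + n ^ 2 + 1) + 36 n Δ / L`.
So `n ^ (3 - o(1))` inequalities are necessary even for approximations up to a factor `n ^ o(1)`, with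
`n ^ (1 + o(1))` binary variables, with success probability `2 ^ (- n ^ (1 + o(1)))`, and if
`n ^ (2 - ε)` of the outputs may be `0`. In (2) even `n ^ 2 / 72` of the outputs may be `0` (then
`Δ ≤ n ^ 2 L / 72`), and `r + n ^ 2 + 1 ≥ n ^ 3 / (6 * 10 ^ 7 ρ ^ 2)`.

Proof. Let `S` be a set of integers in `[0, ν)` without progressions of length 3. Take blocks `A x`
(`x < ν`), `C y` (`y < 2 ν`) and `B z` (`z < 3 ν`) of `k` vertices each, and for every `x` and every
`a ∈ S` a cut of `A x ∪ C (x + a) ∪ B (x + 2 a)`; all these cuts are independent, so that there are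
`N = 3 ν |S| k` bits. Edges from `A x` to `C (x + a)`, from `C (x + a)` to `B (x + 2 a)` and from `A x`
to `B (x + 2 a)` have weight `1` if the cut of `(x, a)` does not separate their ends; all other edges
have weight `L`. As `S` has no progressions, the distance of a vertex in `A x` and a vertex in
`B (x + 2 a)` is the weight of the edge (Ruzsa and Szemeredi). By averaging there is an outcome `ω`
such that `P ω` is complete for a set of at least `2 ^ (N - d)` bit vectors. For each of the
`ν |S| k ^ 3` critical triples `t = (u, w, v) ∈ A x × C (x + a) × B (x + 2 a)` the function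
`ρ (W u w + W w v) - D u v` is nonnegative on the set of the feasible points of `P ω`, as `P ω` is
sound for all real weights; this set is a union of `2 ^ q` polyhedra.

Take the polyhedron which belongs to the largest set of bit vectors, of size at least
`2 ^ (N - q - d)`. By fixing at most `105 ρ ^ 2 (q + d)` bits (density restoration) we get a set `𝒮`
of bit vectors in which every pattern on `j` other bits has density at most `θ ^ j`,
`θ = 1 / 2 + 1 / (300 ρ ^ 2)`. By the lemma of Farkas the values of the functions at these points are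
a sum of `r + 2 n ^ 2 + 1` nonnegative matrices of rank one. Give the pair `(t, s)` the weight `1` if
`s` separates the middle vertex from the two others, and the weight `- c` otherwise,
`c = 1 + 2 / (5 ρ)`. Without shortfalls the inner product of the weights with the values is at least
`|𝒮| L / 8` for every free triple; the shortfalls reduce the sum over all triples by at most
`c k Δ |𝒮|`, since a pair `(u, v)` belongs to at most `k` critical triples (`core0g`). The inner product
of the weights with a nonnegative matrix of rank one with entries at most `2 ρ L` is `O(ρ ^ 2 L |𝒮|)`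
(`Pool.Agent.H98.AM.combd`: if `S ⊆ 𝒮` and `𝒯` is a set of free triples such that for every triple
in `𝒯` at least `(1 / 2 + γ) |S|` of the vectors in `S` separate its middle vertex from the two
others, then `|𝒯| |S| ≤ 20000 |𝒮| / γ ^ 2`). Finally `ν` is chosen such that `ν n` is about
`ρ ^ 2 (q + d)`, up to a factor `exp (O(√(log n)))` (Behrend), and `6 ν k ≤ n`. For (2) a single cut
of all vertices is used: edges have weight `1` inside of the two sides and `L` between them, and all
triples of vertices are critical.
-/

set_option autoImplicit false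

namespace Pool.Agent.Results.MP_885423_lc.MixedIntegerRandom

open MeasureTheory Pool.Agent.H98.AL Pool.Agent.H39MIA

theorem result {Ω : Type*} [MeasurableSpace Ω] (μ : Measure Ω) [IsProbabilityMeasure μ]
    (n q d : ℕ) (r : Ω → ℕ) (ρ L Δ : ℝ) (hρ : 1 ≤ ρ) (hL : 10 * ρ ≤ L) (hΔ : 0 ≤ Δ)
    (P : ∀ ω, Milp n (r ω) q) :
    -- directed graphs
    ((∀ ω, ∀ W : Fin n → Fin n → ℝ, (∀ u, W u u = 0) →
        (∀ u v, u ≠ v → 1 ≤ W u v ∧ W u v ≤ L) → Sound (P ω) ρ W) →
      (∀ W : Fin n → Fin n → ℝ, (∀ u, W u u = 0) →
        (∀ u v, u ≠ v → W u v = 1 ∨ W u v = L) →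
        ∃ A : Set Ω, MeasurableSet A ∧ (1 / 2 : ℝ) ^ d ≤ μ.real A ∧
          ∀ ω ∈ A, Complete (P ω) Δ W) →
      ∃ ω, (n : ℝ) ^ 4 ≤ (n + ρ ^ 2 * Real.exp (8 * √(Real.log n)) * (q + d)) *
        (10 ^ 16 * ρ ^ 2 * (r ω + n ^ 2 + 1) + 10 ^ 9 * n * Δ / L)) ∧
    -- undirected graphs
    (420 * ρ ^ 2 * (q + d) ≤ n →
      (∀ ω, ∀ W : Fin n → Fin n → ℝ, (∀ u, W u u = 0) → (∀ u v, W u v = W v u) →
        (∀ u v, u ≠ v → 1 ≤ W u v ∧ W u v ≤ L) → Sound (P ω) ρ W) →
      (∀ W : Fin n → Fin n → ℝ, (∀ u, W u u = 0) → (∀ u v, W u v = W v u) →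
        (∀ u v, u ≠ v → W u v = 1 ∨ W u v = L) →
        ∃ A : Set Ω, MeasurableSet A ∧ (1 / 2 : ℝ) ^ d ≤ μ.real A ∧
          ∀ ω ∈ A, Complete (P ω) Δ W) →
      ∃ ω, (n : ℝ) ^ 3 ≤ 3 * 10 ^ 7 * ρ ^ 2 * (r ω + n ^ 2 + 1) + 36 * n * Δ / L) :=
  ⟨fun hs hc => milp_random μ hΔ hρ hL P hs hc,
    fun hq hs hc => milp_undR μ hΔ hρ hL hq P hs hc⟩

end Pool.Agent.Results.MP_885423_lc.MixedIntegerRandom
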