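import Pool.Agent.MNX.Prog

/-!
# MP_885423_lc: shortest paths by monotone operations, with free nonnegative linear algebra and tests

A network computes approximate distances of digraphs with edge weights `1` and `L`. Its gates are
arbitrary nondecreasing real functions of any number of arguments, and the arguments are arbitrary
nonnegative linear combinations of inputs and earlier gates; these combinations are free (unbounded
fan-in), only the number of arguments is counted. A program asks in addition `r` yes/no questions
(arbitrary functions of the input), and all its operations may depend on the answers.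

We only ask for the right distances from a set of `p` vertices to a set of `q` vertices, and only
in tripartite digraphs, where edges of weight `1` lead from the first set to `m` middle vertices and
from these to the second set; this is the `(min, +)` product of a `p × m` and an `m × q` matrix with
entries `1` and `L`. If a random program is right with probability at least `1 / D` on every such
input, then, with `X = 2 ^ r D` and `T = 2 X - 1`, the expected number of arguments is at least
`m (⌊p / T⌋ ⌊q / T⌋ / (X T) ^ 2 - (T - 1) (⌊p / T⌋ + ⌊q / T⌋))`. For a network which is always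
right (`r = 0`, `D = 1`) this is `p m q`, and this number is attained by a network which computes all
these distances exactly. For `p = m = q = ⌊n / 3⌋` the bound is at least `n ^ 3 / (1000 X ^ 6)` if
`n ≥ 200 X ^ 6`.

Proof. Let first `r = 0` and let the network be always right. Rows `i`, middle vertices `k` and
columns `j` are disjoint sets of vertices; only the edges `i → k` and `k → j` may be short. For a
triple `τ = (i, j, k)` let `P_τ` be the input with only `i → k` and `k → j` short, and `Q_τ` the
input in which exactly `i → k` and all `k' → j`, `k' ≠ k`, are long. For a node `v` let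
`Δ_v(τ) = v(Q_τ) - v(P_τ)`. If `j ≠ j'` and `(i, k) ≠ (i', k')`, then `Q_τ ≤ P_σ` and `Q_σ ≤ P_τ` for
`σ = (i', j', k')`, so `Δ_v(τ) + Δ_v(σ) ≤ 0` for all nodes. A gate is dominant at `τ` if
`Δ_v(τ) > 0` and `Δ_v(τ) > Δ_v(i, j', k)` for all `j' ≠ j`. The output gate of `(i, j)` is dominant
at `τ`. Below a gate which is dominant at `τ` there is an argument whose value is smaller at `P_τ`
than at `Q_τ`; if one of the gates which occur in this argument is dominant at `τ`, go on with this
gate, otherwise charge `τ` to the argument. Every argument is charged at most once (file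
`Pool/Agent/H98/NetCore.lean`), so there are at least `p m q` of them. For the random program take
`T` blocks of rows and columns, and words of levels; answers are replaced by random guesses.
-/

set_option autoImplicit false

namespace Pool.Agent.Results.MP_885423_lc.MonotoneNetworks

open Pool.Agent.APM54 Pool.Agent.H98.Net Pool.Agent.MNX
open scoped Classical

theorem result (n r D : ℕ) (hD : 1 ≤ D) (α L : ℝ) (hα : 1 ≤ α) (hL : 2 * α < L) :
    (∀ p m q : ℕ, 2 ≤ m → p + m + q ≤ n →
      -- the lower bound, with `X = 2 ^ r * D` and `T = 2 * X - 1`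
      (∀ (ι : Type) [Fintype ι] (P : ι → Program n r) (pr : ι → ℝ),
        (∀ c, 0 ≤ pr c) → ∑ c, pr c = 1 →
        (∀ W : Fin n → Fin n → ℝ, Tripartite p m q L W →
          (1 : ℝ) / D ≤ ∑ c ∈ Finset.univ.filter
            (fun c => Right p m q α ((P c).net ((P c).answers W)) W), pr c) →
        ∀ X T : ℕ, X = 2 ^ r * D → T + 1 = 2 * X →
          (m : ℝ) * ((p / T : ℕ) * (q / T : ℕ) / ((X : ℝ) * T) ^ 2 -
            ((T : ℝ) - 1) * ((p / T : ℕ) + (q / T : ℕ))) ≤ ∑ c, pr c * (P c).numArgs) ∧
      -- `p * m * q` arguments suffice
      ∃ C : Network n, C.numArgs = p * m * q ∧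
        ∀ W : Fin n → Fin n → ℝ, Tripartite p m q L W → Right p m q 1 C W) ∧
    -- three equal classes
    (200 * (2 ^ r * D) ^ 6 ≤ n →
      ∀ (ι : Type) [Fintype ι] (P : ι → Program n r) (pr : ι → ℝ),
        (∀ c, 0 ≤ pr c) → ∑ c, pr c = 1 →
        (∀ W : Fin n → Fin n → ℝ, Tripartite (n / 3) (n / 3) (n / 3) L W →
          (1 : ℝ) / D ≤ ∑ c ∈ Finset.univ.filter
            (fun c => Right (n / 3) (n / 3) (n / 3) α ((P c).net ((P c).answers W)) W), pr c) →
        (n : ℝ) ^ 3 ≤ 1000 * (2 ^ r * D) ^ 6 * ∑ c, pr c * (P c).numArgs) := by
  refine ⟨fun p m q hm hn => ⟨?_, ?_⟩, ?_⟩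
  · intro ι _ P pr hp hp1 hP X T hX hT
    exact lower_program n p m q r D X T hm hn hD hX hT α L hα hL P pr hp hp1 hP
  · exact upper n p m q (by omega) hn L (by linarith)
  · intro hn ι _ P pr hp hp1 hP
    have hX1 : 1 ≤ 2 ^ r * D := Nat.mul_pos (by positivity) hD
    obtain ⟨T, hT⟩ : ∃ T, T + 1 = 2 * (2 ^ r * D) := ⟨2 * (2 ^ r * D) - 1, by omega⟩
    have hX6 : 1 ≤ (2 ^ r * D) ^ 6 := Nat.one_le_pow _ _ hX1
    have h1 := lower_program n (n / 3) (n / 3) (n / 3) r D (2 ^ r * D) T (by omega) (by omega) hD
      rfl hT α L hα hL P pr hp hp1 hP
    have h2 := arith n (2 ^ r * D) T hX1 hT hn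
    push_cast at h1 h2
    refine h2.trans (mul_le_mul_of_nonneg_left ?_ (by positivity))
    exact h1

end Pool.Agent.Results.MP_885423_lc.MonotoneNetworks
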