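import Pool.Agent.H98.SparseMain3
import Pool.Agent.H98.SparseGraphs
import Pool.Agent.H98.SparseUpper4

/-!
# Tight superquadratic bounds for linear decision trees computing `(min, +)` products

We consider linear decision trees (with arbitrary real coefficients) that compute the `(min, +)`
product of two `n × n` matrices `A`, `B`. Queries involving entries of `A` may involve arbitrarily
many entries of one row of `A`, at most one entry of every other row of `A`, and arbitrarily many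
entries of `B`; they are counted. Queries involving entries of `B` only are free, but they may
involve only arbitrarily many entries of one column of `B`, at most one entry of every other column,
and at most `s` further entries. For `s = 0` the optimal cost is exactly `n² (n - 1)`, for `s = 1`
it is of order `n^{5/2}` (between `n^{5/2} / 8 - n²` and `71 n^{5/2}`; the upper bound is a variant
of Fredman's decision tree), and for every `s` it is at least `n^{2 + 1/(2s+1)} / 4 - 3 n² / 2`.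
-/

namespace Pool.Agent.Results.MP_885423_lc.SparseQueries

open Finset
open Pool.Agent.H98.Sparse

theorem rpow_five_half {n : ℕ} (hn : 0 < n) :
    (n : ℝ) ^ (5 / 2 : ℝ) = (n : ℝ) ^ 2 * Real.sqrt n := by
  have h0 : (0 : ℝ) < n := by exact_mod_cast hn
  rw [Real.sqrt_eq_rpow, ← Real.rpow_natCast (n : ℝ) 2, ← Real.rpow_add h0]
  norm_num

theorem plane_bound (n : ℕ) (hn : 0 < n) :
    ∃ G : Finset (Fin n × Fin n), NoShort 1 G ∧
      (n : ℝ) ^ (5 / 2 : ℝ) ≤ 8 * ((n * (G.card - n) : ℕ) : ℝ) + 8 * (n : ℝ) ^ 2 := by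
  classical
  have h0 : (0 : ℝ) < n := by exact_mod_cast hn
  set r := Nat.sqrt n with hr
  have hsq0 : 0 ≤ Real.sqrt n := Real.sqrt_nonneg _
  have hsqsq : Real.sqrt n * Real.sqrt n = n := Real.mul_self_sqrt h0.le
  by_cases hr2 : 2 ≤ r
  · obtain ⟨p, hp, hp1, hp2⟩ := Nat.exists_prime_lt_and_le_two_mul (r / 2) (by omega)
    have hpr : p ≤ r := by omega
    have hpn : p ^ 2 ≤ n := by
      calc p ^ 2 ≤ r ^ 2 := Nat.pow_le_pow_left hpr 2
        _ ≤ n := by rw [sq]; exact Nat.sqrt_le n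
    obtain ⟨G, hG1, hG2⟩ := exists_plane (n := n) p hp hpn
    refine ⟨G, hG1, ?_⟩
    -- p > √n / 2
    have hlt : Real.sqrt n < 2 * p := by
      have h1 : r + 1 ≤ 2 * p := by omega
      have h2 : n < (r + 1) * (r + 1) := Nat.lt_succ_sqrt n
      have h3 : (n : ℝ) < ((r : ℝ) + 1) * ((r : ℝ) + 1) := by exact_mod_cast h2
      have h4 : Real.sqrt n < (r : ℝ) + 1 := by
        by_contra hcon
        rw [not_lt] at hcon
        have h5 : (0 : ℝ) ≤ (r : ℝ) + 1 := by positivity
        nlinarith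
      have h5 : ((r : ℝ) + 1) ≤ 2 * p := by exact_mod_cast h1
      linarith
    have hp0 : (0 : ℝ) ≤ p := by positivity
    have hcube : (n : ℝ) * Real.sqrt n ≤ 8 * (p : ℝ) ^ 3 := by
      have h6 : (n : ℝ) ≤ (2 * (p : ℝ)) * (2 * (p : ℝ)) := by
        rw [← hsqsq]
        exact mul_le_mul hlt.le hlt.le hsq0 (by linarith)
      calc (n : ℝ) * Real.sqrt n ≤ ((2 * (p : ℝ)) * (2 * (p : ℝ))) * (2 * p) :=
            mul_le_mul h6 hlt.le hsq0 (by positivity)
        _ = 8 * (p : ℝ) ^ 3 := by ring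
    have hcard : (p : ℝ) ^ 3 ≤ (G.card : ℝ) := by exact_mod_cast hG2
    have hsub : (G.card : ℝ) - n ≤ ((G.card - n : ℕ) : ℝ) := by
      rw [sub_le_iff_le_add]
      exact_mod_cast (by omega : G.card ≤ (G.card - n) + n)
    rw [rpow_five_half hn]
    push_cast
    have h7 : (n : ℝ) * ((G.card : ℝ) - n) ≤ n * ((G.card - n : ℕ) : ℝ) :=
      mul_le_mul_of_nonneg_left hsub h0.le
    have h8 : (n : ℝ) * (n * Real.sqrt n) ≤ n * (8 * (p : ℝ) ^ 3) :=
      mul_le_mul_of_nonneg_left hcube h0.le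
    have h9 : (n : ℝ) * (p : ℝ) ^ 3 ≤ n * G.card := mul_le_mul_of_nonneg_left hcard h0.le
    nlinarith
  · refine ⟨∅, ?_, ?_⟩
    · intro b hoff _ _ _
      funext k j
      exact hoff k j (by simp)
    · rw [rpow_five_half hn]
      have h1 : n < 4 := by
        have := Nat.lt_succ_sqrt n
        have h2 : Nat.sqrt n ≤ 1 := by omega
        calc n < (Nat.sqrt n + 1) * (Nat.sqrt n + 1) := this
          _ ≤ 2 * 2 := Nat.mul_le_mul (by omega) (by omega)
          _ = 4 := by norm_num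
      have h2 : Real.sqrt n ≤ 8 := by
        rw [Real.sqrt_le_left (by norm_num)]
        have : (n : ℝ) < 4 := by exact_mod_cast h1
        linarith
      have h3 : (0 : ℝ) ≤ ((n * ((∅ : Finset (Fin n × Fin n)).card - n) : ℕ) : ℝ) := by positivity
      have h4 : (n : ℝ) ^ 2 * Real.sqrt n ≤ (n : ℝ) ^ 2 * 8 :=
        mul_le_mul_of_nonneg_left h2 (by positivity)
      linarith

theorem greedy_bound (n s : ℕ) (hn : 0 < n) :
    ∃ G : Finset (Fin n × Fin n), NoShort s G ∧
      (n : ℝ) ^ (2 + 1 / (2 * (s : ℝ) + 1)) ≤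
        4 * ((n * (G.card - n) : ℕ) : ℝ) + 6 * (n : ℝ) ^ 2 := by
  have h0 : (0 : ℝ) < n := by exact_mod_cast hn
  set x : ℝ := 1 / (2 * (s : ℝ) + 1) with hx
  have hx0 : 0 < x := by positivity
  have hx1 : x ≤ 1 := by
    rw [hx, div_le_one (by positivity)]
    have : (0 : ℝ) ≤ s := by positivity
    linarith
  set y : ℝ := ((n : ℝ) / 2) ^ x with hy
  have hy0 : 0 ≤ y := by positivity
  set d := ⌊y⌋₊ with hd
  have hdy : (d : ℝ) ≤ y := Nat.floor_le hy0
  have hyd : y < d + 1 := Nat.lt_floor_add_one y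
  obtain ⟨G, hG1, hG2⟩ := exists_greedy n s d
  refine ⟨G, hG1, ?_⟩
  have hypow : y ^ (2 * s + 1) = (n : ℝ) / 2 := by
    rw [hy, ← Real.rpow_natCast, ← Real.rpow_mul (by positivity)]
    have : x * ((2 * s + 1 : ℕ) : ℝ) = 1 := by
      rw [hx]; push_cast; field_simp
    rw [this, Real.rpow_one]
  have hdpow : ((d ^ (2 * s + 1) : ℕ) : ℝ) ≤ (n : ℝ) / 2 := by
    push_cast
    calc (d : ℝ) ^ (2 * s + 1) ≤ y ^ (2 * s + 1) := pow_le_pow_left₀ (by positivity) hdy _
      _ = (n : ℝ) / 2 := hypow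
  have h1 : (n : ℝ) / 2 ≤ ((n - d ^ (2 * s + 1) : ℕ) : ℝ) := by
    have : (n : ℝ) - ((d ^ (2 * s + 1) : ℕ) : ℝ) ≤ ((n - d ^ (2 * s + 1) : ℕ) : ℝ) := by
      rw [sub_le_iff_le_add]
      exact_mod_cast (by omega : n ≤ (n - d ^ (2 * s + 1)) + d ^ (2 * s + 1))
    linarith
  have h2 : (d : ℝ) * ((n : ℝ) / 2) ≤ (G.card : ℝ) := by
    have h3 : ((d * (n - d ^ (2 * s + 1)) : ℕ) : ℝ) ≤ (G.card : ℝ) := Nat.cast_le.2 hG2
    refine le_trans ?_ h3
    rw [Nat.cast_mul]
    exact mul_le_mul_of_nonneg_left h1 (by positivity)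
  have hsub : (G.card : ℝ) - n ≤ ((G.card - n : ℕ) : ℝ) := by
    rw [sub_le_iff_le_add]
    exact_mod_cast (by omega : G.card ≤ (G.card - n) + n)
  have h4 : (n : ℝ) ^ (2 + x) = (n : ℝ) ^ 2 * (n : ℝ) ^ x := by
    rw [Real.rpow_add h0]
    norm_num
  have h5 : (n : ℝ) ^ x ≤ 2 * y := by
    have h6 : (n : ℝ) ^ x = (2 : ℝ) ^ x * y := by
      rw [hy, ← Real.mul_rpow (by norm_num) (by positivity)]
      congr 1
      ring
    have h7 : (2 : ℝ) ^ x ≤ 2 := by
      calc (2 : ℝ) ^ x ≤ (2 : ℝ) ^ (1 : ℝ) :=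
            Real.rpow_le_rpow_of_exponent_le (by norm_num) hx1
        _ = 2 := Real.rpow_one 2
    rw [h6]
    exact mul_le_mul_of_nonneg_right h7 hy0
  rw [h4]
  push_cast
  have h8 : (n : ℝ) * ((G.card : ℝ) - n) ≤ n * ((G.card - n : ℕ) : ℝ) :=
    mul_le_mul_of_nonneg_left hsub h0.le
  have h9 : (n : ℝ) * ((d : ℝ) * ((n : ℝ) / 2)) ≤ n * G.card := mul_le_mul_of_nonneg_left h2 h0.le
  have h10 : (n : ℝ) ^ 2 * (n : ℝ) ^ x ≤ (n : ℝ) ^ 2 * (2 * (d + 1)) :=
    mul_le_mul_of_nonneg_left (by linarith) (by positivity)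
  nlinarith

/-- **Sparse linear decision trees for the `(min, +)` product.** Let `T t` (`t ∈ ι`, a finite
family) be linear decision trees that compute the `(min, +)` product of any two `n × n` matrices
with entries in `(0, 1)`.
* If all queries are allowed with parameter `0`, there is one input on which each of the trees asks
  at least `n² (n - 1)` queries involving `A`.
* If all queries are allowed with parameter `1`, there is one input on which each of the trees asks
  at least `n^{5/2} / 8 - n²` queries involving `A`.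
* If all queries are allowed with parameter `s`, there is one input on which each of the trees asks
  at least `n^{2 + 1/(2s+1)} / 4 - 3 n² / 2` queries involving `A`.

Conversely,
* there is a tree that computes the `(min, +)` product of all real matrices, has all its queries
  allowed with parameter `0`, and asks at most `n² (n - 1)` queries involving `A` on every input;
* there is a tree that computes the `(min, +)` product of all real matrices, has all its queries
  allowed with parameter `1`, and asks at most `71 n^{5/2}` queries involving `A` on every input. -/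
theorem result (n : ℕ) (hn : 0 < n) (ι : Type*) [Finite ι] :
    (∀ T : ι → DTree n, (∀ t, (T t).Correct) →
      ((∀ t, (T t).Allowed 0) → ∃ A B : Fin n → Fin n → ℝ,
        (∀ i k, 0 < A i k ∧ A i k < 1) ∧ (∀ k j, 0 < B k j ∧ B k j < 1) ∧
        ∀ t, n ^ 2 * (n - 1) ≤ (T t).cost A B) ∧
      ((∀ t, (T t).Allowed 1) → ∃ A B : Fin n → Fin n → ℝ,
        (∀ i k, 0 < A i k ∧ A i k < 1) ∧ (∀ k j, 0 < B k j ∧ B k j < 1) ∧
        ∀ t, (n : ℝ) ^ (5 / 2 : ℝ) ≤ 8 * ((T t).cost A B : ℝ) + 8 * (n : ℝ) ^ 2) ∧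
      (∀ s : ℕ, (∀ t, (T t).Allowed s) → ∃ A B : Fin n → Fin n → ℝ,
        (∀ i k, 0 < A i k ∧ A i k < 1) ∧ (∀ k j, 0 < B k j ∧ B k j < 1) ∧
        ∀ t, (n : ℝ) ^ (2 + 1 / (2 * (s : ℝ) + 1)) ≤
          4 * ((T t).cost A B : ℝ) + 6 * (n : ℝ) ^ 2)) ∧
    (∃ T : DTree n, T.Allowed 0 ∧ (∀ A B i j, T.output A B i j = minPlus A B i j) ∧
      ∀ A B, T.cost A B ≤ n ^ 2 * (n - 1)) ∧
    (∃ T : DTree n, T.Allowed 1 ∧ (∀ A B i j, T.output A B i j = minPlus A B i j) ∧
      ∀ A B, (T.cost A B : ℝ) ≤ 71 * (n : ℝ) ^ (5 / 2 : ℝ)) := by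
  refine ⟨fun T hC => ⟨fun hA => ?_, fun hA => ?_, fun s hA => ?_⟩, upper_zero n, ?_⟩
  · obtain ⟨A, B, h1, h2, h3⟩ := main (noShort_zero (Finset.univ : Finset (Fin n × Fin n))) T hA hC
    refine ⟨A, B, h1, h2, fun t => le_trans (le_of_eq ?_) (h3 t)⟩
    simp only [Finset.card_univ, Fintype.card_prod, Fintype.card_fin]
    have h4 : n * n - n = n * (n - 1) := by rw [Nat.mul_sub, mul_one]
    rw [h4]; ring
  · obtain ⟨G, hG1, hG2⟩ := plane_bound n hn
    obtain ⟨A, B, h1, h2, h3⟩ := main hG1 T hA hC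
    refine ⟨A, B, h1, h2, fun t => ?_⟩
    have h4 : ((n * (G.card - n) : ℕ) : ℝ) ≤ ((T t).cost A B : ℝ) := by exact_mod_cast h3 t
    linarith
  · obtain ⟨G, hG1, hG2⟩ := greedy_bound n s hn
    obtain ⟨A, B, h1, h2, h3⟩ := main hG1 T hA hC
    refine ⟨A, B, h1, h2, fun t => ?_⟩
    have h4 : ((n * (G.card - n) : ℕ) : ℝ) ≤ ((T t).cost A B : ℝ) := by exact_mod_cast h3 t
    linarith
  · obtain ⟨T, h1, h2, h3⟩ := upper_one n hn
    refine ⟨T, h1, h2, fun A B => ?_⟩
    have h4 : ((T.cost A B : ℕ) : ℝ) ≤ 71 * ((n : ℝ) ^ 2 * (Nat.sqrt n : ℝ)) := by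
      exact_mod_cast h3 A B
    have h5 : (Nat.sqrt n : ℝ) ≤ Real.sqrt n := Real.nat_sqrt_le_real_sqrt
    rw [rpow_five_half hn]
    have h6 : (n : ℝ) ^ 2 * (Nat.sqrt n : ℝ) ≤ (n : ℝ) ^ 2 * Real.sqrt n :=
      mul_le_mul_of_nonneg_left h5 (by positivity)
    linarith

end Pool.Agent.Results.MP_885423_lc.SparseQueries
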